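import Mathlib
set_option autoImplicit false
namespace Pool.Agent.Results.MP_1ae613_gt.Counter
open Set Topology Filter

def CoSober (Z : Type) [TopologicalSpace Z] : Prop :=
  ∀ G : Set Z, G.Nonempty → IsCompact G → nhdsKer G = G →
    (∀ K₁ K₂ : Set Z, IsCompact K₁ → nhdsKer K₁ = K₁ → IsCompact K₂ → nhdsKer K₂ = K₂ →
      K₁ ∪ K₂ = G → K₁ = G ∨ K₂ = G) → ∃ x, G = {y | x ∈ closure {y}}

abbrev C := ℕ → Bool

open Classical in
noncomputable def p (x : C) : C := fun k => decide (∀ᶠ n in atTop, x (Nat.pair k n))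

def acc (A : Set C) : Set C := {x | ClusterPt x (cofinite ⊓ 𝓟 A)}

lemma acc_mono {A B : Set C} (h : A ⊆ B) : acc A ⊆ acc B := fun _ h' =>
  ClusterPt.mono h' (inf_le_inf_left _ (principal_mono.2 h))

lemma acc_union (A B : Set C) : acc (A ∪ B) ⊆ acc A ∪ acc B := fun x h => by
  simpa only [acc, mem_union, mem_ofPred_eq, ClusterPt, ← sup_principal, inf_sup_left,
    sup_neBot] using h

lemma acc_fin {A : Set C} (h : A.Finite) : acc A = ∅ := eq_empty_of_forall_notMem fun _ h' =>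
  cofinite_inf_principal_neBot_iff.1 (neBot_of_le (hf := h') inf_le_right) h

lemma p_dense (y : C) : Dense (p ⁻¹' {y}) := dense_iff_inter_open.2 fun U hU ⟨x, hx⟩ => by
  classical
  obtain ⟨F, u, h1, h2⟩ := isOpen_pi_iff.1 hU x hx
  refine ⟨fun i => if i ∈ F then x i else y i.unpair.1, h2 fun i hi => by
    simpa [show i ∈ F from hi] using (h1 i hi).2, funext fun k => ?_⟩
  have : ∀ᶠ n in atTop, Nat.pair k n ∉ F := (eventually_gt_atTop (F.sup id)).mono fun n h h' =>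
    (h.trans_le (Nat.right_le_pair k n)).not_ge (Finset.le_sup (f := id) h')
  rw [p, Bool.eq_iff_iff, decide_eq_true_iff, eventually_congr (q := fun _ => y k = true)
    (this.mono fun n h => by simp [h]), eventually_const]

structure X where
  y : C
  l : ℕ

def Cl (F : Set X) : Prop :=
  (∀ y l l', l' ≤ l → ⟨y, l⟩ ∈ F → ⟨y, l'⟩ ∈ F) ∧ ∀ x ∈ acc (X.y '' F), ∀ l, ⟨p x, l⟩ ∈ F

instance : TopologicalSpace X := .ofClosed {F | Cl F}
  ⟨fun _ _ _ _ h => h, by simp [acc_fin]⟩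
  (fun _ h => ⟨fun y l l' h1 h2 F hF => (h hF).1 y l l' h1 (h2 F hF), fun x hx l F hF =>
    (h hF).2 x (acc_mono (image_mono (sInter_subset_of_mem hF)) hx) l⟩)
  fun _ h _ h' => ⟨fun y l l' h1 h2 => h2.imp (h.1 y l l' h1) (h'.1 y l l' h1), fun x hx l =>
    (acc_union _ _ (image_union _ _ _ ▸ hx)).imp (h.2 x · l) (h'.2 x · l)⟩

lemma cl_iff {F : Set X} : IsClosed F ↔ Cl F := by
  rw [← isOpen_compl_iff]
  change Cl Fᶜᶜ ↔ _
  rw [compl_compl]

lemma sp {a b : X} : a ∈ closure {b} ↔ a.y = b.y ∧ a.l ≤ b.l := by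
  refine ⟨fun h => closure_minimal (t := {a : X | a.y = b.y ∧ a.l ≤ b.l}) (by simp) (cl_iff.2
    ⟨fun _ _ _ h h' => ⟨h'.1, h.trans h'.2⟩, fun x h => ?_⟩) h, fun h => ?_⟩
  · rw [acc_fin ((finite_singleton b.1).subset (by rintro _ ⟨a, h, rfl⟩; exact h.1))] at h
    exact h.elim
  · obtain ⟨a, l⟩ := a
    obtain rfl : a = b.1 := h.1
    exact (cl_iff.1 isClosed_closure).1 _ _ _ h.2 (subset_closure rfl)

def k (a : X) : X := ⟨a.y, 0⟩

lemma cyl {A : Set C} (h : MapsTo p (acc A) A) : IsClosed (X.y ⁻¹' A) :=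
  cl_iff.2 ⟨fun _ _ _ _ h => h, fun _ hx _ => h (acc_mono (image_preimage_subset _ _) hx)⟩

theorem result : ∃ (X : Type) (_ : TopologicalSpace X) (k : X → X), T0Space X ∧ CoSober X ∧
    Continuous k ∧ (∀ x, k x ∈ closure {x}) ∧ k ∘ k = k ∧ ¬ CoSober (range k) := by
  classical
  refine ⟨X, inferInstance, k, ⟨fun ⟨a, l⟩ ⟨b, l'⟩ h => ?_⟩, fun G ⟨⟨m, l₀⟩, h0⟩ h1 h2 h3 => ?_,
    continuous_iff_isClosed.2 fun F hF => ?_, fun x => sp.2 ⟨rfl, Nat.zero_le _⟩, rfl, fun h => ?_⟩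
  · have h1 := sp.1 h.specializes.mem_closure
    exact congrArg₂ _ h1.1.symm ((sp.1 h.symm.specializes.mem_closure).2.antisymm h1.2)
  · have h4 : ∃ l, (⟨m, l⟩ : X) ∈ G := ⟨l₀, h0⟩
    let a : X := ⟨m, Nat.find h4⟩
    have ha : a ∈ G := Nat.find_spec h4
    have h5 {b c : X} (h : b ∈ G) (h' : b ∈ closure {c}) : c ∈ G :=
      h2.le (mem_nhdsKer_iff_specializes.2 ⟨b, h, specializes_iff_mem_closure.2 h'⟩)
    refine ⟨a, ((h3 (nhdsKer {a}) (G \ {a}) isCompact_singleton.nhdsKer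
      (nhdsKer_nhdsKer _) ?_ (subset_nhdsKer.antisymm' fun c hc => ?_) ?_).resolve_right
      fun h => (h.ge ha).2 rfl).symm.trans ?_⟩
    · refine isCompact_of_finite_subfamily_closed fun F h6 h7 => ?_
      let b : X := ⟨m, Nat.find h4 + 1⟩
      obtain ⟨i, h8⟩ : ∃ i, b ∉ F i := by_contra fun h => eq_empty_iff_forall_notMem.1 h7 b ⟨⟨h5 ha
        (sp.2 ⟨rfl, Nat.le_succ _⟩), fun h => Nat.succ_ne_self (Nat.find h4) (congrArg X.l h)⟩,
        mem_iInter.2 (by simpa using h)⟩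
      have h9 := cl_iff.1 (h6 i)
      have h10 : IsClosed (F i \ {a}) := cl_iff.2 ⟨fun y l l' h h' => ⟨h9.1 y l l' h h'.1,
        fun h10 => by
          obtain ⟨rfl, rfl⟩ := X.mk.inj h10
          exact h8 (h9.1 _ _ _ (h.lt_of_ne fun h => h'.2 (congrArg _ h.symm)) h'.1)⟩,
        fun x hx l => by
          have := h9.2 x (acc_mono (image_mono diff_subset) hx)
          exact ⟨this l, fun h => h8 ((X.mk.inj h).1 ▸ this _ :)⟩⟩
      obtain ⟨t, ht⟩ := (h1.inter_right h10).elim_finite_subfamily_closed F h6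
        (subset_eq_empty (fun c h => mem_inter (mem_diff_of_mem h.1.1 h.1.2.2) h.2) h7)
      refine ⟨insert i t, subset_eq_empty (fun c h => ?_) ht⟩
      rw [Finset.set_biInter_insert] at h
      exact ⟨⟨h.1.1, h.2.1, h.1.2⟩, h.2.2⟩
    · obtain ⟨⟨y, l⟩, h6, h7⟩ := mem_nhdsKer_iff_specializes.1 hc
      refine ⟨h5 h6.1 h7.mem_closure, ?_⟩
      rintro rfl
      obtain ⟨h8, h9⟩ := sp.1 h7.mem_closure
      obtain rfl : y = m := h8
      exact h6.2 (congrArg _ (h9.antisymm (Nat.find_min' h4 h6.1)))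
    · refine (union_subset (fun c h => h2.le (nhdsKer_mono (singleton_subset_iff.2 ha) h))
        diff_subset).antisymm fun c h => ?_
      exact (em (c = a)).imp (fun h => subset_nhdsKer h) fun h' => ⟨h, h'⟩
    · ext c
      simp [mem_nhdsKer_singleton, specializes_iff_mem_closure]
  · exact cyl (A := {y | (⟨y, 0⟩ : X) ∈ F}) fun x hx => (cl_iff.1 hF).2 x
      (acc_mono (by exact fun y h => ⟨_, h, rfl⟩) hx) 0
  let e : C → range k := fun y => ⟨⟨y, 0⟩, ⟨y, 0⟩, rfl⟩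
  have he (a : range k) : e a.1.y = a := by
    obtain ⟨_, a, rfl⟩ := a
    rfl
  have h1 (K : Set (range k)) (hK : IsCompact K) (x) (hx : x ∈ acc (e ⁻¹' K)) : e (p x) ∈ K := by
    by_contra h1
    obtain ⟨s, h2, h3⟩ := mem_closure_iff_seq_limit.1 (mem_closure_iff_clusterPt.2
      (ClusterPt.mono hx (le_principal_iff.2 (inter_mem_inf (finite_singleton x).compl_mem_cofinite
        (mem_principal_self _)))))
    have h4 (z) (hz : z ≠ x) : ∃ U ∈ 𝓝 z, ∃ n, ∀ m ≥ n, s m ∉ U := by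
      obtain ⟨U, V, h4, h5, h6, h7, h8⟩ := t2_separation hz
      exact ⟨U, h4.mem_nhds h6, eventually_atTop.1 ((h3.eventually_mem (h5.mem_nhds h7)).mono
        fun n h => disjoint_right.1 h8 h)⟩
    refine (hK.elim_directed_family_closed
      (fun n => (↑) ⁻¹' (X.y ⁻¹' insert (p x) (s '' Ici n)))
      (fun n => (cyl fun z hz => Or.inl (congrArg p (by_contra fun h => ?_))).preimage
        continuous_subtype_val) (eq_empty_of_forall_notMem fun a ⟨h5, h6⟩ => ?_)
      (directed_of_isDirected_le fun m n h => preimage_mono (preimage_mono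
        (insert_subset_insert (image_mono (Ici_subset_Ici.2 h)))))).elim fun n h5 =>
      eq_empty_iff_forall_notMem.1 h5 (e (s n)) ⟨(h2 n).2, Or.inr ⟨n, self_mem_Ici, rfl⟩⟩
    · obtain ⟨U, h5, m, h6⟩ := h4 z h
      refine ((clusterPt_iff_frequently.1 hz U h5).and_eventually (inter_mem_inf
        (((finite_Iio m).image s).insert (p x)).compl_mem_cofinite (mem_principal_self _))).exists.elim ?_
      rintro _ ⟨h7, h8, rfl | ⟨i, -, rfl⟩⟩
      · exact h8 (Or.inl rfl)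
      · exact h8 (Or.inr ⟨i, not_le.1 fun h => h6 i h h7, rfl⟩)
    · have h7 (n) : ∃ m ≥ n, s m = a.1.y := (mem_iInter.1 h6 n).resolve_left fun h =>
        h1 (h ▸ (he a).symm ▸ h5)
      obtain ⟨n, -, h8⟩ := h7 0
      obtain ⟨U, h9, m, h10⟩ := h4 _ (h8 ▸ (h2 n).1)
      obtain ⟨i, h11, h12⟩ := h7 m
      exact h10 i h11 (h12 ▸ mem_of_mem_nhds h9)
  have h5 : IsCompact (univ : Set (range k)) := isCompact_iff_ultrafilter_le_nhds.2 fun 𝒰 _ => by
    rcases 𝒰.le_cofinite_or_eq_pure with h | ⟨a, h⟩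
    · obtain ⟨x, -, hx⟩ := isCompact_univ.ultrafilter_le_nhds (𝒰.map fun a => a.1.y) (by simp)
      refine ⟨e (p x), trivial, le_nhds_iff.2 fun U h2 h3 => by_contra fun h4 => ?_⟩
      obtain ⟨V, h5, rfl⟩ := isOpen_induced_iff.1 h3
      refine (cl_iff.1 h5.isClosed_compl).2 x (ClusterPt.mono (f := 𝒰.map fun a => a.1.y)
        (Ultrafilter.clusterPt_iff.2 hx) (le_inf ?_ (le_principal_iff.2 ?_))) 0 h2
      · exact (map_mono h).trans (Function.LeftInverse.injective he).tendsto_cofinite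
      · exact mem_map.2 (mem_of_superset (Ultrafilter.compl_mem_iff_notMem.2 h4)
          fun a h => ⟨_, h, rfl⟩)
    · exact ⟨a, trivial, h ▸ pure_le_nhds a⟩
  obtain ⟨x, hx⟩ := h univ ⟨e default, trivial⟩ h5 nhdsKer_univ fun K₁ K₂ h2 _ h3 _ h4 => by
    by_contra! h6
    have h7 (K) (hK : IsCompact K) (h : K ≠ univ) : interior (acc (e ⁻¹' K)) = ∅ := by
      obtain ⟨a, ha⟩ := nonempty_compl.2 h
      refine not_nonempty_iff_eq_empty.1 fun h => ?_
      obtain ⟨x, h7, h8⟩ := (p_dense a.1.y).inter_open_nonempty _ isOpen_interior h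
      exact ha (he a ▸ (h8 : p x = _) ▸ h1 K hK x (interior_subset h7))
    have h8 := interior_union_isClosed_of_interior_empty (s := acc (e ⁻¹' K₁))
      isClosed_setOf_clusterPt (h7 _ h3 h6.2)
    rw [h7 _ h2 h6.1, eq_univ_of_univ_subset (s := _ ∪ _) fun x _ => acc_union _ _ ?_] at h8
    · simp at h8
    rw [← preimage_union, h4, preimage_univ, acc, principal_univ, inf_top_eq]
    have : (𝓝[≠] x).NeBot := mem_closure_iff_nhdsWithin_neBot.1 ((p_dense fun i => !p x i).mono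
      (s₂ := {x}ᶜ) (fun z h h' => (Bool.eq_not_self _).1 (congrFun ((h' : z = x) ▸ h : p x = _) 0)) x)
    exact clusterPt_iff_frequently.2 fun U hU => frequently_cofinite_iff_infinite.2
      (infinite_of_mem_nhds x hU)
  have h2 (y) : x.1.y = y := (sp.1 (image_singleton (f := Subtype.val) ▸
    closure_subtype.1 (hx.le (mem_univ (e y))))).1
  simpa using congrFun ((h2 fun _ => true).symm.trans (h2 fun _ => false)) 0

end Pool.Agent.Results.MP_1ae613_gt.Counter
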